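import Pool.Agent.MP_dbd6a6_co.H29.BoxA

/-!
The zeros of the moment generating function in a disc, for small `y`.
-/

open Real MeasureTheory intervalIntegral

noncomputable section

namespace Pool.Agent.MP_dbd6a6_co.H29

open H92 H70

lemma num_exp {a : ℝ} (ha : 5.5 ≤ a) : 178.6 * a ≤ 0.0037 * exp (2.3 * a) := by
  have h1 : (162000 : ℝ) ≤ exp 12 := by
    have h : (2.7182818283 : ℝ) ^ 12 ≤ exp 1 ^ 12 :=
      pow_le_pow_left₀ (by norm_num) exp_one_gt_d9.le 12
    rw [← exp_nat_mul] at h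
    norm_num at h ⊢
    linarith
  have h2 : (1.65 : ℝ) ≤ exp 0.65 := by linarith [add_one_le_exp (0.65 : ℝ)]
  have h3 := add_one_le_exp (2.3 * (a - 5.5))
  have e : exp (2.3 * a) = exp 12 * exp 0.65 * exp (2.3 * (a - 5.5)) := by
    rw [← exp_add, ← exp_add]; congr 1; ring
  have h4 : (162000 : ℝ) * 1.65 ≤ exp 12 * exp 0.65 := mul_le_mul h1 h2 (by norm_num) (exp_pos _).le
  have h5 := mul_le_mul h4 h3 (by linarith) (by positivity)
  rw [e]
  linarith

/-- The standing assumptions. -/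
structure Hyp (y a : ℝ) : Prop where
  hM : MeasStmt
  hy : 0 < y
  hy1 : y ≤ 1 / 10 ^ 6
  ha : 5.5 ≤ a
  h1 : ww y a = 1

/-- The convex region containing the zeros. -/
def Om (a : ℝ) : Set ℂ := {z | ‖z‖ ≤ 1.1 * a ∧ a - 0.005 / a ≤ z.re}

lemma convex_Om (a : ℝ) : Convex ℝ (Om a) := by
  have h := (convex_closedBall (0 : ℂ) (1.1 * a)).inter (convex_halfSpace_re_ge (a - 0.005 / a))
  have e : Om a = Metric.closedBall (0 : ℂ) (1.1 * a) ∩ {c : ℂ | a - 0.005 / a ≤ c.re} := by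
    ext z; simp [Om]
  rwa [e]

/-- The logarithm of the quotient of the two parts. -/
def Psi (y γ : ℝ) (z : ℂ) : ℂ := Complex.log (La y γ z) - Complex.log (M0 y z)

lemma sg_pos {a : ℝ} (ha : 5.5 ≤ a) : 0 < sg a := div_pos (by norm_num) (by linarith)

lemma sg_le {a : ℝ} (ha : 5.5 ≤ a) : sg a ≤ 0.3126 := by
  rw [sg, div_le_iff₀ (by linarith)]; linarith

lemma sg_ge {a x : ℝ} (ha : 5.5 ≤ a) (hx : a - 0.005 / a ≤ x) :
    3 / 2 < x ∧ 5 / 2 / (x - 3 / 2) ≤ 2 * sg a := by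
  have h : 0.005 / a ≤ 0.001 := by rw [div_le_iff₀ (by linarith)]; linarith
  refine ⟨by linarith, ?_⟩
  rw [sg, ← mul_div_assoc, show (2 : ℝ) * 1.25 = 5 / 2 by norm_num]
  exact div_le_div_of_nonneg_left (by norm_num) (by linarith) (by linarith)

lemma D_le {a : ℝ} (ha : 5.5 ≤ a) : (0.21 * a ^ 2 + 0.01) * sg a ^ 2 / 2 ≤ 0.311 := by
  have h : 0 < a - 1.501 := by linarith
  rw [sg, div_pow, ← mul_div_assoc, div_div, div_le_iff₀ (by positivity)]
  nlinarith

lemma kp_le {a : ℝ} (ha : 5.5 ≤ a) : kp a ≤ 0.46 := by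
  have h1 := D_le ha
  have h2 := sg_le ha
  have : sg a / (1 - (0.21 * a ^ 2 + 0.01) * sg a ^ 2 / 2) ≤ 0.459 := by
    rw [div_le_iff₀ (by linarith)]; linarith
  rw [kp]; linarith

lemma im_sq_le {a : ℝ} (ha : 5.5 ≤ a) {z : ℂ} (hz : z ∈ Om a) :
    z.im ^ 2 ≤ 0.21 * a ^ 2 + 0.01 := by
  have h1 : ‖z‖ ^ 2 ≤ (1.1 * a) ^ 2 := pow_le_pow_left₀ (norm_nonneg _) hz.1 2
  have h : 0.005 / a ≤ 0.001 := by rw [div_le_iff₀ (by linarith)]; linarith
  have h2 : (a - 0.005 / a) ^ 2 ≤ z.re ^ 2 := pow_le_pow_left₀ (by linarith) hz.2 2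
  have h3 : a * (0.005 / a) = 0.005 := by field_simp
  rw [Complex.sq_norm, Complex.normSq_apply] at h1
  nlinarith [sq_nonneg (0.005 / a)]

namespace Hyp

variable {y a : ℝ} (h : Hyp y a)
include h

lemma small {x s : ℝ} (hx : 0 ≤ x) (hs : s ≤ 3.41 * x - 2.3 * a) :
    exp s * y ≤ 0.0037 / a * ww y x := by
  have ha := h.ha
  have hy := h.hy
  have h1 := ww_low h.hM hy (by linarith [h.hy1]) hx
  have h2 : exp s * exp (2.3 * a) ≤ exp (3.41 * x) := by
    rw [← exp_add]; exact exp_le_exp.2 (by linarith)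
  have h3 := mul_le_mul_of_nonneg_left (num_exp ha) (exp_pos s).le
  have h4 : exp s * a ≤ 0.0037 * (0.0056 * exp (3.41 * x)) := by
    nlinarith [mul_pos (exp_pos s) (show 0 < a by linarith)]
  rw [div_mul_eq_mul_div, le_div_iff₀ (by linarith)]
  nlinarith [mul_le_mul_of_nonneg_left h4 hy.le]

lemma eps : y + exp (1.1 * a * (1 + y)) * y ≤ 0.0045 / a := by
  have ha := h.ha
  have hy := h.hy
  have hy1 := h.hy1
  have h1 := h.small (x := a) (s := 1.1 * a * (1 + y)) (by linarith) (by nlinarith)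
  have h2 := add_one_le_exp (1.1 * a * (1 + y))
  have h3 : 7 * y ≤ exp (1.1 * a * (1 + y)) * y :=
    mul_le_mul_of_nonneg_right (by nlinarith) hy.le
  rw [h.h1, mul_one] at h1
  have h4 : 0.0045 / a = 0.0037 / a + 0.0008 / a := by ring
  have h5 : 0.0037 / a ≤ 7 * (0.0008 / a) := by
    rw [← mul_div_assoc]; exact div_le_div_of_nonneg_right (by norm_num) (by linarith)
  linarith

lemma eps_le : 0.0045 / a ≤ 0.00082 := by
  have ha := h.ha
  rw [div_le_iff₀ (by linarith)]; linarith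

lemma M0_sub {z : ℂ} (hz : ‖z‖ ≤ 1.1 * a) : ‖M0 y z - 1‖ ≤ 0.0045 / a :=
  (norm_M0_sub h.hM h.hy hz).trans h.eps

lemma M0_re {z : ℂ} (hz : ‖z‖ ≤ 1.1 * a) : 1 - 0.0045 / a ≤ (M0 y z).re := by
  have h1 := (Complex.abs_re_le_norm _).trans (h.M0_sub hz)
  rw [Complex.sub_re, Complex.one_re] at h1
  linarith [(abs_le.1 h1).1]

lemma M0_log {z : ℂ} (hz : ‖z‖ ≤ 1.1 * a) : ‖M0' y z / M0 y z‖ ≤ 0.001 := by
  have ha := h.ha
  have h1 := (h.M0_re hz).trans (Complex.re_le_norm _)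
  have h2 := norm_M0' h.hM h.hy (by linarith) ((Complex.re_le_norm z).trans hz)
  have h3 := h.eps
  have h4 := h.eps_le
  rw [norm_div, div_le_iff₀ (by linarith)]
  linarith [h.hy]

lemma ww_pos {x : ℝ} (hx : 0 ≤ x) : 0 < ww y x := by
  have hy := h.hy
  exact lt_of_lt_of_le (by positivity) (ww_low h.hM hy (by linarith [h.hy1]) hx)

lemma part1 {z : ℂ} (hz : M y z = 0) (hx : a ≤ z.re) :
    (1 + 3.6 * (z.re - a)) * (1 - z.im ^ 2 * sg a ^ 2 / 2 - 0.0045 / a) ≤ 1 := by
  have ha := h.ha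
  have hy := h.hy
  have hy1 := h.hy1
  have h0 : 0 < 0.005 / a := by positivity
  obtain ⟨h1, h2⟩ := sg_ge ha (x := z.re) (by linarith)
  have h3 := (re_La h.hM hy h1 h2).trans (Complex.re_le_norm _)
  have h4 : W1 y z = -M0 y z := by rw [M_split hy] at hz; linear_combination hz
  have h5 : ‖M0 y z‖ = exp ((bet y - sg a) * z.re) * ‖La y (bet y - sg a) z‖ := by
    rw [← norm_neg, ← h4, W1_eq y (bet y - sg a), norm_mul, Complex.norm_exp,
      Complex.re_ofReal_mul]
  have h6 := norm_M0 h.hM hy (z := z) le_rfl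
  have h7 := h.small (x := z.re) (s := z.re * (1 + y)) (by linarith) (by nlinarith)
  have h8 := mul_le_mul_of_nonneg_left h3 (exp_pos ((bet y - sg a) * z.re)).le
  rw [← mul_assoc, ← mul_assoc, ← exp_add, add_neg_cancel, exp_zero, one_mul, ← h5] at h8
  have h9 := ww_nonneg h.hM hy z.re
  have h10 : 0.0037 / a * ww y z.re ≤ 0.0045 / a * ww y z.re :=
    mul_le_mul_of_nonneg_right (div_le_div_of_nonneg_right (by norm_num) (by linarith)) h9
  have h11 : 1 + 3.6 * (z.re - a) ≤ ww y z.re := by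
    have h12 := mean_ge h.hM hy (x := a) (q := 3.6) (by linarith) (by
      have : 3 / 2 / (a - 3 / 2) ≤ 0.4 := by rw [div_le_iff₀ (by linarith)]; linarith
      linarith)
    have h13 := le_IR h.hM hy (f := fun t => exp (z.re * t)) (g := fun t => exp (a * t))
      (h := fun t => t * exp (a * t)) (by fun_prop) (by fun_prop) (by fun_prop) 1 (z.re - a)
      fun t _ => by
        have e : exp (z.re * t) = exp (a * t) * exp ((z.re - a) * t) := by
          rw [← exp_add]; congr 1; ring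
        have := mul_le_mul_of_nonneg_left (add_one_le_exp ((z.re - a) * t)) (exp_pos (a * t)).le
        rw [e]; linarith
    rw [← ww, ← ww, h.h1] at h13
    rw [h.h1] at h12
    nlinarith
  rcases le_total (1 - z.im ^ 2 * sg a ^ 2 / 2 - 0.0045 / a) 0 with hc | hc
  · exact (mul_nonpos_of_nonneg_of_nonpos (by linarith) hc).trans zero_le_one
  · refine (mul_le_mul_of_nonneg_right h11 hc).trans ?_
    linarith

lemma mem_Om {z : ℂ} (hn : ‖z‖ ≤ 1.1 * a) (hz : M y z = 0) : z ∈ Om a := by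
  refine ⟨hn, ?_⟩
  by_contra hx
  have ha := h.ha
  have hy := h.hy
  have h0 : 0 < 0.005 / a := by positivity
  have h4 : M0 y z = -W1 y z := by rw [M_split hy] at hz; linear_combination hz
  have h1 := (h.M0_re hn).trans (Complex.re_le_norm _)
  rw [h4, norm_neg] at h1
  have h2 := ww_le h.hM hy (x := z.re) (x' := a) (c := -(0.005 / a)) fun t ht => by
    nlinarith [ht.1]
  rw [h.h1, mul_one] at h2
  have h3 := (h1.trans (norm_W1 hy z)).trans h2
  have h5 : 0.005 / a ≤ 0.001 := by rw [div_le_iff₀ (by linarith)]; linarith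
  have h6 : 0.0045 / a = 0.9 * (0.005 / a) := by ring
  rw [h6, exp_neg, ← one_div, le_div_iff₀ (exp_pos _)] at h3
  have h7 := mul_le_mul_of_nonneg_left (add_one_le_exp (0.005 / a))
    (show 0 ≤ 1 - 0.9 * (0.005 / a) by linarith)
  nlinarith

lemma La_re {z : ℂ} (hz : z ∈ Om a) : 0 < (La y (bet y - sg a) z).re ∧
    ‖La' y (bet y - sg a) z / La y (bet y - sg a) z‖ ≤
      sg a / (1 - (0.21 * a ^ 2 + 0.01) * sg a ^ 2 / 2) := by
  have ha := h.ha
  obtain ⟨h1, h2⟩ := sg_ge ha hz.2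
  have h3 := re_La h.hM h.hy h1 h2
  have h4 := norm_La' h.hM h.hy h1 (sg_pos ha) h2
  have h5 := D_le ha
  have h6 : 1 - (0.21 * a ^ 2 + 0.01) * sg a ^ 2 / 2 ≤ 1 - z.im ^ 2 * sg a ^ 2 / 2 := by
    have := mul_le_mul_of_nonneg_right (im_sq_le ha hz) (sq_nonneg (sg a))
    linarith
  have h7 : 0 < exp (-((bet y - sg a) * z.re)) * ww y z.re :=
    mul_pos (exp_pos _) (h.ww_pos (by linarith))
  have h8 := (mul_le_mul_of_nonneg_left h6 h7.le).trans h3
  have h9 : 0 < (La y (bet y - sg a) z).re := lt_of_lt_of_le (mul_pos h7 (by linarith)) h8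
  refine ⟨h9, ?_⟩
  have h10 := h8.trans (Complex.re_le_norm _)
  rw [norm_div, div_le_div_iff₀ (h9.trans_le (Complex.re_le_norm _)) (by linarith)]
  have h11 := mul_le_mul_of_nonneg_right h4
    (show 0 ≤ 1 - (0.21 * a ^ 2 + 0.01) * sg a ^ 2 / 2 by linarith)
  have h12 := mul_le_mul_of_nonneg_left h10 (sg_pos ha).le
  linarith

lemma M0_pos {z : ℂ} (hz : z ∈ Om a) : 0 < (M0 y z).re := by
  linarith [h.M0_re hz.1, h.eps_le]

lemma Psi_bound {z : ℂ} (hz : z ∈ Om a) :
    ‖La' y (bet y - sg a) z / La y (bet y - sg a) z - M0' y z / M0 y z‖ ≤ kp a :=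
  (norm_sub_le _ _).trans (add_le_add (h.La_re hz).2 (h.M0_log hz.1))

lemma Psi_lip {z w : ℂ} (hz : z ∈ Om a) (hw : w ∈ Om a) :
    ‖Psi y (bet y - sg a) z - Psi y (bet y - sg a) w‖ ≤ kp a * ‖z - w‖ :=
  (convex_Om a).norm_image_sub_le_of_norm_hasDerivWithin_le
    (f' := fun z => La' y (bet y - sg a) z / La y (bet y - sg a) z - M0' y z / M0 y z)
    (fun v hv => (((hasDerivAt_La h.hy _ v).clog (Or.inl (h.La_re hv).1)).sub
      ((hasDerivAt_M0 h.hy v).clog (Or.inl (h.M0_pos hv)))).hasDerivWithinAt)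
    (fun _ hv => h.Psi_bound hv) hw hz

lemma gam_gt : kp a < bet y - sg a := by
  linarith [kp_le h.ha, sg_le h.ha, h.hM.bet_ge y h.hy]

lemma deriv_ne {z : ℂ} (hn : ‖z‖ ≤ 1.1 * a) (hz : M y z = 0) : deriv (M y) z ≠ 0 := by
  have hy := h.hy
  have hO := h.mem_Om hn hz
  have hb := h.Psi_bound hO
  have hg := h.gam_gt
  have hLa : La y (bet y - sg a) z ≠ 0 := fun h0 => by simpa [h0] using (h.La_re hO).1
  have hM0 : M0 y z ≠ 0 := fun h0 => by simpa [h0] using h.M0_pos hO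
  set γ := bet y - sg a
  have e : M y = fun w => Complex.exp (γ * w) * La y γ w + M0 y w := by
    ext w; rw [M_split hy, W1_eq y γ]
  have hd := ((((hasDerivAt_id z).const_mul (γ : ℂ)).cexp).mul (hasDerivAt_La hy γ z)).add
    (hasDerivAt_M0 hy z)
  have hd' : deriv (M y) z =
      Complex.exp (γ * z) * (γ * 1) * La y γ z + Complex.exp (γ * z) * La' y γ z + M0' y z := by
    rw [e]; exact hd.deriv
  have h4 : Complex.exp (γ * z) * La y γ z = -M0 y z := by
    rw [e] at hz; linear_combination hz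
  intro h0
  have h5 : La' y γ z / La y γ z - M0' y z / M0 y z = -γ := by
    rw [hd'] at h0
    field_simp
    linear_combination (-La y γ z) * h0 + (γ * La y γ z + La' y γ z) * h4
  rw [h5, norm_neg, Complex.norm_real, Real.norm_eq_abs] at hb
  linarith [le_abs_self γ]

lemma Psi_real {x : ℝ} (hx : (x : ℂ) ∈ Om a) : (Psi y (bet y - sg a) x).im = 0 := by
  have h1 := (h.La_re hx).1
  have h2 := h.M0_pos hx
  rw [La, LI_ofReal, Complex.ofReal_re] at h1
  rw [M0, LI_ofReal, Complex.ofReal_re] at h2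
  rw [Psi, La, M0, LI_ofReal, LI_ofReal, Complex.sub_im, Complex.log_im, Complex.log_im,
    Complex.arg_ofReal_of_nonneg h1.le, Complex.arg_ofReal_of_nonneg h2.le, sub_zero]

lemma Psi_im {z : ℂ} (hz : z ∈ Om a) (hH : 0 < z.im) :
    |(Psi y (bet y - sg a) z).im| ≤ kp a * z.im := by
  have hx : (z.re : ℂ) ∈ Om a := by
    refine ⟨le_trans ?_ hz.1, by simpa using hz.2⟩
    rw [Complex.norm_real, Real.norm_eq_abs]
    exact Complex.abs_re_le_norm z
  have h1 := (Complex.abs_im_le_norm _).trans (h.Psi_lip hz hx)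
  have e : z - z.re = z.im * Complex.I := by
    linear_combination -Complex.re_add_im z
  rwa [Complex.sub_im, h.Psi_real hx, sub_zero, e, norm_mul, Complex.norm_I, mul_one,
    Complex.norm_real, Real.norm_eq_abs, abs_of_pos hH] at h1

lemma index {z : ℂ} (hn : ‖z‖ ≤ 1.1 * a) (hz : M y z = 0) (hH : 0 < z.im) : ∃ k : ℕ,
    (bet y - sg a : ℝ) * z + Psi y (bet y - sg a) z = (((2 * k + 1) * π : ℝ) : ℂ) * Complex.I := by
  have hy := h.hy
  have hO := h.mem_Om hn hz
  have hi := h.Psi_im hO hH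
  have hg := h.gam_gt
  have hLa : La y (bet y - sg a) z ≠ 0 := fun h0 => by simpa [h0] using (h.La_re hO).1
  have hM0 : M0 y z ≠ 0 := fun h0 => by simpa [h0] using h.M0_pos hO
  set γ := bet y - sg a
  have h4 : Complex.exp (γ * z) * La y γ z = -M0 y z := by
    rw [M_split hy, W1_eq y γ] at hz; linear_combination hz
  have h5 : Complex.exp (γ * z + Psi y γ z) = Complex.exp (π * Complex.I) := by
    rw [Psi, Complex.exp_add, Complex.exp_sub, Complex.exp_log hLa, Complex.exp_log hM0,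
      Complex.exp_pi_mul_I, ← mul_div_assoc, h4, neg_div, div_self hM0]
  obtain ⟨k, hk⟩ := Complex.exp_eq_exp_iff_exists_int.1 h5
  have h6 := congrArg Complex.im hk
  simp only [Complex.add_im, Complex.I_im, mul_one, Complex.mul_im,
    Complex.intCast_re, Complex.intCast_im, Complex.mul_re, Complex.re_ofNat, Complex.ofReal_re,
    Complex.im_ofNat, Complex.ofReal_im, Complex.I_re, mul_zero, zero_mul, sub_zero,
    add_zero] at h6
  have h7 : 0 ≤ k := by
    by_contra hk0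
    have h8 : (k : ℝ) ≤ -1 := by exact_mod_cast (by omega : k ≤ -1)
    have h9 := (abs_le.1 hi).1
    nlinarith [pi_pos, mul_pos (sub_pos.2 hg) hH]
  lift k to ℕ using h7
  refine ⟨k, ?_⟩
  rw [hk]
  push_cast
  ring

lemma part5 {z : ℂ} (hz : ‖z‖ = 2 * (1.1 * a)) : ‖M y z‖ ≤ exp (5 * a) := by
  have ha := h.ha
  have hy := h.hy
  have hy1 := h.hy1
  have hx : z.re ≤ 2.2 * a := by linarith [Complex.re_le_norm z]
  have h1 := norm_M0 h.hM hy hx
  have hb := h.hM.bet_le y hy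
  have h2 := ww_le h.hM hy (x := z.re) (x' := a) (c := 4.81 * a) fun t ht => by
    have h3 : (z.re - a) * t ≤ 1.2 * a * t := mul_le_mul_of_nonneg_right (by linarith) (by
      linarith [ht.1])
    have h4 : 1.2 * a * t ≤ 1.2 * a * 4.005 :=
      mul_le_mul_of_nonneg_left (by linarith [ht.2]) (by linarith)
    linarith
  rw [h.h1, mul_one] at h2
  have h3 : exp (2.2 * a * (1 + y)) ≤ exp (4.81 * a) := exp_le_exp.2 (by nlinarith)
  have h4 := add_one_le_exp (4.81 * a)
  have h5 : exp (5 * a) = exp (4.81 * a) * exp (0.19 * a) := by rw [← exp_add]; congr 1; ring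
  have h6 := mul_le_mul_of_nonneg_left (add_one_le_exp (0.19 * a)) (exp_pos (4.81 * a)).le
  have h7 := mul_le_mul h3 hy1 hy.le (exp_pos _).le
  rw [M_split hy, h5]
  refine (norm_add_le _ _).trans ?_
  have h8 := norm_W1 hy z
  nlinarith [exp_pos (4.81 * a)]

lemma part6 (ha : 16.5 ≤ a) : IA y (fun t => exp ((a - 0.32) * t)) ≤ 1.3 := by
  have hy := h.hy
  have hy1 := h.hy1
  rw [h.hM.split y _ hy (Continuous.continuousOn (by fun_prop)), ← ww]
  have h1 := IL_exp h.hM hy (x := a - 0.32) (X := 1.1 * a) (by linarith)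
  have h2 := h.eps.trans h.eps_le
  have h3 := mean_ge h.hM hy (x := a - 0.32) (q := 3.897) (by linarith) (by
    have : 3 / 2 / (a - 0.32 - 3 / 2) ≤ 0.103 := by rw [div_le_iff₀ (by linarith)]; linarith
    linarith)
  have h4 := le_IR h.hM hy (f := fun t => exp (a * t)) (g := fun t => exp ((a - 0.32) * t))
    (h := fun t => t * exp ((a - 0.32) * t)) (by fun_prop) (by fun_prop) (by fun_prop)
    (exp (0.32 * 3.897) * (1 - 0.32 * 3.897)) (exp (0.32 * 3.897) * 0.32) fun t _ => by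
      have e : exp (a * t) = exp (0.32 * 3.897) * exp ((a - 0.32) * t) *
          exp (0.32 * (t - 3.897)) := by
        rw [← exp_add, ← exp_add]; congr 1; ring
      have := mul_le_mul_of_nonneg_left (add_one_le_exp (0.32 * (t - 3.897)))
        (mul_pos (exp_pos (0.32 * 3.897)) (exp_pos ((a - 0.32) * t))).le
      rw [e]; linarith
  rw [← ww, ← ww, h.h1] at h4
  have h5 : (3.38 : ℝ) ≤ exp (0.32 * 3.897) := by
    have e : exp (0.32 * 3.897 : ℝ) = exp 1 * exp (0.32 * 3.897 - 1) := by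
      rw [← exp_add]; congr 1; ring
    have := mul_le_mul exp_one_gt_d9.le (add_one_le_exp (0.32 * 3.897 - 1 : ℝ)) (by norm_num)
      (exp_pos _).le
    rw [e]; linarith
  have h6 := mul_le_mul_of_nonneg_left h3 (show 0 ≤ exp (0.32 * 3.897 : ℝ) * 0.32 by positivity)
  have h7 := mul_le_mul_of_nonneg_right h5 (ww_nonneg h.hM hy (a - 0.32))
  linarith

end Hyp

theorem box (hM : MeasStmt) : BoxStmt := by
  intro y a hy hy1 ha h1
  have h : Hyp y a := ⟨hM, hy, hy1, ha, h1⟩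
  refine ⟨fun z hz hx => h.part1 hz hx, fun z hn hz => ⟨(h.mem_Om hn hz).2, h.deriv_ne hn hz⟩,
    fun z hz hH => ?_, ?_, fun z hz => h.part5 hz, h.part6⟩
  · by_contra hx
    have := re_M_pos hy (by linarith) (not_lt.1 hx) hH
    simp [hz] at this
  · have key : ∀ z : ℂ, ∃ k : ℕ, ‖z‖ ≤ 1.1 * a → M y z = 0 → 0 < z.im →
        (bet y - sg a : ℝ) * z + Psi y (bet y - sg a) z =
          (((2 * k + 1) * π : ℝ) : ℂ) * Complex.I := by
      intro z
      by_cases hc : ‖z‖ ≤ 1.1 * a ∧ M y z = 0 ∧ 0 < z.im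
      · obtain ⟨k, hk⟩ := h.index hc.1 hc.2.1 hc.2.2
        exact ⟨k, fun _ _ _ => hk⟩
      · exact ⟨0, fun h1 h2 h3 => absurd ⟨h1, h2, h3⟩ hc⟩
    choose ι hι using key
    refine ⟨ι, fun z hz w hw hzw => ?_, fun z hn hz hH => ?_⟩
    · have h2 := hι z hz.1 hz.2.1 hz.2.2
      have h3 := hι w hw.1 hw.2.1 hw.2.2
      have h4 := h.Psi_lip (h.mem_Om hz.1 hz.2.1) (h.mem_Om hw.1 hw.2.1)
      have h5 : Psi y (bet y - sg a) z - Psi y (bet y - sg a) w =
          -((bet y - sg a : ℝ) * (z - w)) := by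
        rw [hzw] at h2
        linear_combination h2 - h3
      rw [h5, norm_neg, norm_mul, Complex.norm_real, Real.norm_eq_abs] at h4
      have h6 := mul_le_mul_of_nonneg_right (le_abs_self (bet y - sg a)) (norm_nonneg (z - w))
      have h7 : ‖z - w‖ ≤ 0 := by
        by_contra h8
        nlinarith [mul_pos (sub_pos.2 h.gam_gt) (not_le.1 h8)]
      exact sub_eq_zero.1 (norm_le_zero_iff.1 h7)
    · have h2 := congrArg Complex.im (hι z hn hz hH)
      rw [Complex.add_im, Complex.im_ofReal_mul, Complex.im_ofReal_mul, Complex.I_im, mul_one] at h2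
      have h3 := abs_le.1 (h.Psi_im (h.mem_Om hn hz) hH)
      constructor <;> linarith [h3.1, h3.2]

end Pool.Agent.MP_dbd6a6_co.H29
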