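import Pool.Agent.MP_dbd6a6_co.H70.Spec

/-!
The two parts of the moment generating function and their elementary bounds.
-/

open Real MeasureTheory intervalIntegral

noncomputable section

namespace Pool.Agent.MP_dbd6a6_co.H29

open H92 H70

/-- Laplace transform over a subinterval. -/
def LI (φ u : ℝ → ℝ) (p q : ℝ) (z : ℂ) : ℂ := ∫ θ in p..q, (φ θ : ℂ) * Complex.exp (z * u θ)

lemma hasDerivAt_LI {φ u : ℝ → ℝ} (hφ : Continuous φ) (hu : Continuous u) (p q : ℝ) (z : ℂ) :
    HasDerivAt (LI φ u p q) (LI (fun θ => φ θ * u θ) u p q z) z := by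
  have hc : ∀ w : ℂ, Continuous fun θ => (φ θ : ℂ) * Complex.exp (w * u θ) := fun w => by fun_prop
  have hc' : Continuous fun θ => ((φ θ * u θ : ℝ) : ℂ) * Complex.exp (z * u θ) := by fun_prop
  refine (hasDerivAt_integral_of_dominated_loc_of_deriv_le (μ := volume)
    (F := fun w θ => (φ θ : ℂ) * Complex.exp (w * u θ))
    (F' := fun w θ => ((φ θ * u θ : ℝ) : ℂ) * Complex.exp (w * u θ))
    (bound := fun θ => |φ θ * u θ| * Real.exp ((‖z‖ + 1) * |u θ|))
    (Metric.ball_mem_nhds z one_pos) (.of_forall fun w => (hc w).aestronglyMeasurable)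
    ((hc z).intervalIntegrable _ _) hc'.aestronglyMeasurable (.of_forall fun θ _ w hw => ?_)
    (Continuous.intervalIntegrable (by fun_prop) _ _) (.of_forall fun θ _ w _ => ?_)).2
  · rw [norm_mul, Complex.norm_real, Real.norm_eq_abs]
    gcongr
    refine (Complex.norm_exp_le_exp_norm _).trans (Real.exp_le_exp.2 ?_)
    rw [norm_mul, Complex.norm_real, Real.norm_eq_abs]
    gcongr
    have := norm_sub_norm_le w z
    rw [Metric.mem_ball, dist_eq_norm] at hw
    linarith
  · have := (((hasDerivAt_id w).mul_const (u θ : ℂ)).cexp).const_mul (φ θ : ℂ)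
    refine this.congr_deriv ?_
    simp only [id]; push_cast; ring

lemma LI_ofReal (φ u : ℝ → ℝ) (p q x : ℝ) :
    LI φ u p q x = (∫ θ in p..q, φ θ * Real.exp (x * u θ) : ℝ) := by
  rw [LI, ← intervalIntegral.integral_ofReal]
  push_cast; rfl

lemma re_LI {φ u : ℝ → ℝ} (hφ : Continuous φ) (hu : Continuous u) (p q : ℝ) (z : ℂ) :
    (LI φ u p q z).re = ∫ θ in p..q, φ θ * (exp (z.re * u θ) * cos (z.im * u θ)) := by
  have hc : Continuous fun θ => (φ θ : ℂ) * Complex.exp (z * u θ) := by fun_prop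
  rw [LI, ← Complex.reCLM_apply,
    ← Complex.reCLM.intervalIntegral_comp_comm (hc.intervalIntegrable _ _)]
  refine intervalIntegral.integral_congr fun θ _ => ?_
  simp only [Complex.reCLM_apply]
  rw [Complex.re_ofReal_mul, Complex.exp_re]
  simp

lemma norm_LI_le {φ u : ℝ → ℝ} {p q : ℝ} (hpq : p ≤ q) (z : ℂ) :
    ‖LI φ u p q z‖ ≤ ∫ θ in p..q, |φ θ| * Real.exp (z.re * u θ) := by
  refine (intervalIntegral.norm_integral_le_integral_norm hpq).trans (le_of_eq ?_)
  refine intervalIntegral.integral_congr fun θ _ => ?_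
  simp [Complex.norm_exp]

/-- The right part. -/
def W1 (y : ℝ) : ℂ → ℂ := LI (wt y) (xx y) 0 (2 * π / 3)

/-- The left part. -/
def M0 (y : ℝ) : ℂ → ℂ := LI (wt y) (xx y) (2 * π / 3) π

/-- The derivative of the left part. -/
def M0' (y : ℝ) : ℂ → ℂ := LI (fun θ => wt y θ * xx y θ) (xx y) (2 * π / 3) π

/-- The centred right part. -/
def La (y γ : ℝ) : ℂ → ℂ := LI (wt y) (fun θ => xx y θ - γ) 0 (2 * π / 3)

/-- The derivative of the centred right part. -/
def La' (y γ : ℝ) : ℂ → ℂ :=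
  LI (fun θ => wt y θ * (xx y θ - γ)) (fun θ => xx y θ - γ) 0 (2 * π / 3)

/-- The right part on the real axis. -/
def ww (y x : ℝ) : ℝ := IR y fun t => exp (x * t)

variable {y : ℝ}

lemma hR : (0 : ℝ) ≤ 2 * π / 3 := by positivity

lemma hL : 2 * π / 3 ≤ π := by linarith [pi_pos]

lemma M_split (hy : 0 < y) (z : ℂ) : M y z = W1 y z + M0 y z := by
  have := continuous_wt hy
  exact (integral_add_adjacent_intervals (Continuous.intervalIntegrable (by fun_prop) _ _)
    (Continuous.intervalIntegrable (by fun_prop) _ _)).symm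

lemma W1_eq (y γ : ℝ) (z : ℂ) : W1 y z = Complex.exp (γ * z) * La y γ z := by
  rw [W1, La, LI, LI, ← intervalIntegral.integral_const_mul]
  refine intervalIntegral.integral_congr fun θ _ => ?_
  rw [mul_left_comm, ← Complex.exp_add]
  congr 2
  push_cast
  ring

lemma hasDerivAt_M0 (hy : 0 < y) (z : ℂ) : HasDerivAt (M0 y) (M0' y z) z :=
  hasDerivAt_LI (continuous_wt hy) (continuous_xx y) _ _ z

lemma hasDerivAt_La (hy : 0 < y) (γ : ℝ) (z : ℂ) : HasDerivAt (La y γ) (La' y γ z) z :=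
  hasDerivAt_LI (continuous_wt hy) (by fun_prop) _ _ z

lemma IR_lin (hy : 0 < y) {g h : ℝ → ℝ} (hg : Continuous g) (hh : Continuous h) (c d : ℝ) :
    IR y (fun t => c * g t + d * h t) = c * IR y g + d * IR y h := by
  have := continuous_wt hy
  simp only [IR]
  rw [← intervalIntegral.integral_const_mul, ← intervalIntegral.integral_const_mul,
    ← integral_add (Continuous.intervalIntegrable (by fun_prop) _ _)
      (Continuous.intervalIntegrable (by fun_prop) _ _)]
  refine intervalIntegral.integral_congr fun θ _ => ?_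
  ring

lemma IL_lin (hy : 0 < y) {g h : ℝ → ℝ} (hg : Continuous g) (hh : Continuous h) (c d : ℝ) :
    IL y (fun t => c * g t + d * h t) = c * IL y g + d * IL y h := by
  have := continuous_wt hy
  simp only [IL]
  rw [← intervalIntegral.integral_const_mul, ← intervalIntegral.integral_const_mul,
    ← integral_add (Continuous.intervalIntegrable (by fun_prop) _ _)
      (Continuous.intervalIntegrable (by fun_prop) _ _)]
  refine intervalIntegral.integral_congr fun θ _ => ?_
  ring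

/-- Comparison with a linear combination. -/
lemma IR_le (hM : MeasStmt) (hy : 0 < y) {f g h : ℝ → ℝ} (hf : Continuous f) (hg : Continuous g)
    (hh : Continuous h) (c d : ℝ) (H : ∀ t ∈ Set.Icc 1 (bet y), f t ≤ c * g t + d * h t) :
    IR y f ≤ c * IR y g + d * IR y h := by
  rw [← IR_lin hy hg hh]
  exact hM.monoR y _ _ hy hf.continuousOn (Continuous.continuousOn (by fun_prop)) H

lemma le_IR (hM : MeasStmt) (hy : 0 < y) {f g h : ℝ → ℝ} (hf : Continuous f) (hg : Continuous g)
    (hh : Continuous h) (c d : ℝ) (H : ∀ t ∈ Set.Icc 1 (bet y), c * g t + d * h t ≤ f t) :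
    c * IR y g + d * IR y h ≤ IR y f := by
  rw [← IR_lin hy hg hh]
  exact hM.monoR y _ _ hy (Continuous.continuousOn (by fun_prop)) hf.continuousOn H

lemma IR_nonneg (hM : MeasStmt) (hy : 0 < y) {f : ℝ → ℝ} (hf : Continuous f)
    (H : ∀ t ∈ Set.Icc 1 (bet y), 0 ≤ f t) : 0 ≤ IR y f := by
  have := le_IR hM hy hf hf hf 0 0 (by simpa using H)
  simpa using this

lemma ww_le (hM : MeasStmt) (hy : 0 < y) {x x' c : ℝ}
    (H : ∀ t ∈ Set.Icc 1 (bet y), (x - x') * t ≤ c) : ww y x ≤ exp c * ww y x' := by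
  have := IR_le hM hy (f := fun t => exp (x * t)) (g := fun t => exp (x' * t))
    (h := fun t => exp (x' * t)) (by fun_prop) (by fun_prop) (by fun_prop) (exp c) 0
    fun t ht => by
      rw [zero_mul, add_zero, ← exp_add]
      exact exp_le_exp.2 (by linarith [H t ht])
  simpa [ww] using this

lemma ww_low (hM : MeasStmt) (hy : 0 < y) (hy1 : y ≤ 1 / 1000) {x : ℝ} (hx : 0 ≤ x) :
    0.0056 * y * exp (3.41 * x) ≤ ww y x :=
  hM.lower y _ _ hy hy1 (exp_pos _).le (Continuous.continuousOn (by fun_prop))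
    (fun t _ => (exp_pos _).le) fun t ht => exp_le_exp.2 (by nlinarith [ht.1])

lemma tilt_exp (hM : MeasStmt) (hy : 0 < y) {x : ℝ} (hx : 3 / 2 < x) :
    IR y (fun t => (bet y - t) * exp (x * t)) ≤ 3 / 2 / (x - 3 / 2) * ww y x ∧
    IR y (fun t => (bet y - t) ^ 2 * exp (x * t)) ≤
      5 / 2 / (x - 3 / 2) * IR y (fun t => (bet y - t) * exp (x * t)) :=
  hM.tilt y x (fun t => exp (x * t)) (fun t => x * exp (x * t)) hy hx
    (fun t _ => by
      simpa [mul_comm] using ((hasDerivAt_id t).const_mul x).exp)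
    (Continuous.continuousOn (by fun_prop)) (fun t _ => (exp_pos _).le) fun t _ => le_rfl

lemma ww_nonneg (hM : MeasStmt) (hy : 0 < y) (x : ℝ) : 0 ≤ ww y x :=
  IR_nonneg hM hy (by fun_prop) fun _ _ => (exp_pos _).le

/-- The mean of the tilted law. -/
lemma mean_ge (hM : MeasStmt) (hy : 0 < y) {x q : ℝ} (hx : 3 / 2 < x)
    (hq : q ≤ 4 - 3 / 2 / (x - 3 / 2)) : q * ww y x ≤ IR y fun t => t * exp (x * t) := by
  have h1 := (tilt_exp hM hy hx).1
  have h2 := le_IR hM hy (f := fun t => t * exp (x * t)) (g := fun t => exp (x * t))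
    (h := fun t => (bet y - t) * exp (x * t)) (by fun_prop) (by fun_prop) (by fun_prop)
    (bet y) (-1) fun t _ => le_of_eq (by ring)
  have h3 := ww_nonneg hM hy x
  have h4 := hM.bet_ge y hy
  rw [← ww] at h2
  nlinarith

lemma var_le (hM : MeasStmt) (hy : 0 < y) {x σ : ℝ} (hx : 3 / 2 < x)
    (hσ : 5 / 2 / (x - 3 / 2) ≤ 2 * σ) :
    IR y (fun t => (t - (bet y - σ)) ^ 2 * exp (x * t)) ≤ σ ^ 2 * ww y x := by
  have h1 := (tilt_exp hM hy hx).2
  have h0 : 0 ≤ IR y fun t => (bet y - t) * exp (x * t) :=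
    IR_nonneg hM hy (by fun_prop) fun t ht => mul_nonneg (sub_nonneg.2 ht.2) (exp_pos _).le
  have h2 := IR_lin hy (g := fun t => (bet y - t) ^ 2 * exp (x * t))
    (h := fun t => (bet y - t) * exp (x * t)) (by fun_prop) (by fun_prop) 1 (-2 * σ)
  have h3 := IR_le hM hy (f := fun t => (t - (bet y - σ)) ^ 2 * exp (x * t))
    (g := fun t => 1 * ((bet y - t) ^ 2 * exp (x * t)) + (-2 * σ) * ((bet y - t) * exp (x * t)))
    (h := fun t => exp (x * t)) (by fun_prop) (by fun_prop) (by fun_prop) 1 (σ ^ 2)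
    fun t _ => le_of_eq (by ring)
  rw [h2, ← ww] at h3
  nlinarith

lemma re_La (hM : MeasStmt) (hy : 0 < y) {σ : ℝ} {z : ℂ} (hx : 3 / 2 < z.re)
    (hσ : 5 / 2 / (z.re - 3 / 2) ≤ 2 * σ) :
    exp (-((bet y - σ) * z.re)) * ww y z.re * (1 - z.im ^ 2 * σ ^ 2 / 2) ≤
      (La y (bet y - σ) z).re := by
  have h1 := var_le hM hy hx hσ
  set γ := bet y - σ
  have h2 := le_IR hM hy (f := fun t => exp (z.re * (t - γ)) * cos (z.im * (t - γ)))
    (g := fun t => exp (z.re * t)) (h := fun t => (t - γ) ^ 2 * exp (z.re * t))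
    (by fun_prop) (by fun_prop) (by fun_prop) (exp (-(γ * z.re)))
    (-(exp (-(γ * z.re)) * z.im ^ 2 / 2)) fun t _ => by
      have e : exp (z.re * (t - γ)) = exp (-(γ * z.re)) * exp (z.re * t) := by
        rw [← exp_add]; congr 1; ring
      have h3 := mul_le_mul_of_nonneg_left (one_sub_sq_div_two_le_cos (x := z.im * (t - γ)))
        (exp_pos (z.re * (t - γ))).le
      refine le_trans (le_of_eq ?_) h3
      rw [e]; ring
  rw [La, re_LI (continuous_wt hy) (by fun_prop)]
  refine le_trans ?_ h2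
  have h4 := mul_le_mul_of_nonneg_left h1
    (show 0 ≤ exp (-(γ * z.re)) * z.im ^ 2 / 2 by positivity)
  rw [← ww]
  linarith

lemma norm_La' (hM : MeasStmt) (hy : 0 < y) {σ : ℝ} {z : ℂ} (hx : 3 / 2 < z.re) (h0 : 0 < σ)
    (hσ : 5 / 2 / (z.re - 3 / 2) ≤ 2 * σ) :
    ‖La' y (bet y - σ) z‖ ≤ exp (-((bet y - σ) * z.re)) * ww y z.re * σ := by
  have h1 := var_le hM hy hx hσ
  set γ := bet y - σ
  have h2 := IR_le hM hy (f := fun t => |t - γ| * exp (z.re * (t - γ)))
    (g := fun t => exp (z.re * t)) (h := fun t => (t - γ) ^ 2 * exp (z.re * t))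
    (by fun_prop) (by fun_prop) (by fun_prop) (exp (-(γ * z.re)) * σ / 2)
    (exp (-(γ * z.re)) / (2 * σ)) fun t _ => by
      have e : exp (z.re * (t - γ)) = exp (-(γ * z.re)) * exp (z.re * t) := by
        rw [← exp_add]; congr 1; ring
      have h3 : |t - γ| ≤ σ / 2 + (t - γ) ^ 2 / (2 * σ) := by
        rw [← sq_abs, div_add_div _ _ two_ne_zero (by positivity), le_div_iff₀ (by positivity)]
        nlinarith [sq_nonneg (|t - γ| - σ)]
      refine (mul_le_mul_of_nonneg_right h3 (exp_pos _).le).trans (le_of_eq ?_)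
      rw [e]; ring
  have h3 : ‖La' y γ z‖ ≤ IR y fun t => |t - γ| * exp (z.re * (t - γ)) := by
    refine (norm_LI_le hR z).trans (le_of_eq ?_)
    refine intervalIntegral.integral_congr fun θ _ => ?_
    simp only
    rw [abs_mul, abs_of_nonneg (wt_nonneg hy θ), mul_assoc]
  have h4 := mul_le_mul_of_nonneg_left h1 (show 0 ≤ exp (-(γ * z.re)) / (2 * σ) by positivity)
  have e : exp (-(γ * z.re)) / (2 * σ) * (σ ^ 2 * ww y z.re) =
      exp (-(γ * z.re)) * σ / 2 * ww y z.re := by field_simp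
  rw [← ww] at h2
  linarith

lemma norm_W1 (hy : 0 < y) (z : ℂ) : ‖W1 y z‖ ≤ ww y z.re := by
  refine (norm_LI_le hR z).trans (le_of_eq ?_)
  refine intervalIntegral.integral_congr fun θ _ => ?_
  simp only
  rw [abs_of_nonneg (wt_nonneg hy θ)]

lemma exp_conv {X T t : ℝ} (hT : 1 ≤ T) (ht : t ∈ Set.Ioc 0 T) :
    exp (X * t) - 1 ≤ exp (X * T) * t := by
  have hT0 : 0 < T := by linarith
  have h1 : t / T ≤ 1 := (div_le_one hT0).2 ht.2
  have h2 : 0 ≤ t / T := div_nonneg ht.1.le hT0.le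
  have h := convexOn_exp.2 (Set.mem_univ (X * T)) (Set.mem_univ 0) h2 (sub_nonneg.2 h1) (by ring)
  simp only [smul_eq_mul, mul_zero, add_zero, exp_zero, mul_one] at h
  rw [show t / T * (X * T) = X * t by field_simp] at h
  have h3 : t / T ≤ t := div_le_self ht.1.le hT
  nlinarith [exp_pos (X * T)]

lemma IL_one (hM : MeasStmt) (hy : 0 < y) : 1 - y ≤ IL y (fun _ => 1) ∧ IL y (fun _ => 1) ≤ 1 := by
  have h1 := hM.split y (fun _ => 1) hy continuousOn_const
  have h2 : IA y (fun _ => 1) = 1 := by simpa [IA] using mom_zero hy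
  have h3 := hM.massR y hy
  have h4 : 0 ≤ IR y fun _ => 1 := IR_nonneg hM hy continuous_const fun _ _ => zero_le_one
  constructor <;> linarith

lemma IL_exp (hM : MeasStmt) (hy : 0 < y) {x X : ℝ} (hx : x ≤ X) :
    IL y (fun t => exp (x * t)) ≤ 1 + exp (X * (1 + y)) * y := by
  have h1 := IL_lin hy (g := fun t => exp (x * t)) (h := fun _ => 1) (by fun_prop) (by fun_prop)
    1 (-1)
  have h2 := hM.smallL y (exp (X * (1 + y))) (fun t => 1 * exp (x * t) + -1 * 1) hy (exp_pos _).le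
    (Continuous.continuousOn (by fun_prop)) fun t ht => by
      have h3 := exp_conv (X := X) (by linarith) ht
      have h4 : exp (x * t) ≤ exp (X * t) := exp_le_exp.2 (by nlinarith [ht.1])
      linarith
  linarith [(IL_one hM hy).2]

lemma norm_M0 (hM : MeasStmt) (hy : 0 < y) {z : ℂ} {X : ℝ} (hx : z.re ≤ X) :
    ‖M0 y z‖ ≤ 1 + exp (X * (1 + y)) * y := by
  refine (norm_LI_le hL z).trans (le_trans (le_of_eq ?_) (IL_exp hM hy hx))
  refine intervalIntegral.integral_congr fun θ _ => ?_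
  simp only
  rw [abs_of_nonneg (wt_nonneg hy θ)]

lemma norm_M0' (hM : MeasStmt) (hy : 0 < y) {z : ℂ} {X : ℝ} (hX : 0 ≤ X) (hx : z.re ≤ X) :
    ‖M0' y z‖ ≤ exp (X * (1 + y)) * y := by
  refine (norm_LI_le hL z).trans (le_trans (le_of_eq ?_)
    (hM.smallL y _ (fun t => t * exp (z.re * t)) hy (exp_pos _).le
      (Continuous.continuousOn (by fun_prop)) fun t ht => ?_))
  · refine intervalIntegral.integral_congr fun θ _ => ?_
    simp only
    rw [abs_of_nonneg (mul_nonneg (wt_nonneg hy θ) (xx_pos hy θ).le), mul_assoc]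
  · rw [mul_comm]
    exact mul_le_mul_of_nonneg_right (exp_le_exp.2 (by nlinarith [ht.1, ht.2])) ht.1.le

lemma norm_M0_sub (hM : MeasStmt) (hy : 0 < y) {z : ℂ} {X : ℝ} (hz : ‖z‖ ≤ X) :
    ‖M0 y z - 1‖ ≤ y + exp (X * (1 + y)) * y := by
  have hw := continuous_wt hy
  have h0 : M0 y 0 = (IL y (fun _ => 1) : ℝ) := by
    have := LI_ofReal (wt y) (xx y) (2 * π / 3) π 0
    simpa [IL, M0] using this
  have h1 : ‖M0 y 0 - 1‖ ≤ y := by
    obtain ⟨h2, h3⟩ := IL_one hM hy
    rw [h0, ← Complex.ofReal_one, ← Complex.ofReal_sub, Complex.norm_real, Real.norm_eq_abs, abs_le]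
    constructor <;> linarith
  have h2 : ‖M0 y z - M0 y 0‖ ≤ IL y fun t => exp (X * t) - 1 := by
    rw [M0, LI, LI, ← integral_sub (Continuous.intervalIntegrable (by fun_prop) _ _)
      (Continuous.intervalIntegrable (by fun_prop) _ _)]
    refine (intervalIntegral.norm_integral_le_integral_norm hL).trans ?_
    refine integral_mono_on hL (Continuous.intervalIntegrable (by fun_prop) _ _)
      (Continuous.intervalIntegrable (by fun_prop) _ _) fun θ _ => ?_
    rw [← mul_sub, norm_mul, Complex.norm_real, Real.norm_eq_abs, abs_of_nonneg (wt_nonneg hy θ),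
      zero_mul, Complex.exp_zero]
    refine mul_le_mul_of_nonneg_left ?_ (wt_nonneg hy θ)
    have h3 := Complex.norm_exp_sub_sum_le_exp_norm_sub_sum (z * xx y θ) 1
    simp only [Finset.range_one, Finset.sum_singleton, pow_zero, Nat.factorial_zero, Nat.cast_one,
      div_one] at h3
    refine h3.trans (sub_le_sub_right (exp_le_exp.2 ?_) _)
    rw [norm_mul, Complex.norm_real, Real.norm_eq_abs, abs_of_pos (xx_pos hy θ)]
    exact mul_le_mul_of_nonneg_right hz (xx_pos hy θ).le
  have h3 := hM.smallL y (exp (X * (1 + y))) (fun t => exp (X * t) - 1) hy (exp_pos _).le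
    (Continuous.continuousOn (by fun_prop)) fun t ht => exp_conv (by linarith) ht
  calc ‖M0 y z - 1‖ = ‖(M0 y 0 - 1) + (M0 y z - M0 y 0)‖ := by congr 1; ring
    _ ≤ _ := (norm_add_le _ _).trans (by linarith)

/-- No zeros in the left half of the strip. -/
lemma re_M_pos (hy : 0 < y) (hy1 : y < 1 / 2) {z : ℂ} (hx : z.re ≤ 0) (hH : |z.im| ≤ 2) :
    0 < (M y z).re := by
  have hw := continuous_wt hy
  have h1 : (M y z).re = ∫ θ in (0 : ℝ)..π, wt y θ * (exp (z.re * xx y θ) * cos (z.im * xx y θ)) :=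
    re_LI hw (continuous_xx y) 0 π z
  have h2 : ∫ θ in (0 : ℝ)..π, exp (z.re / 2) * (wt y θ - 2 * (wt y θ * xx y θ)) =
      exp (z.re / 2) * (1 - 2 * y) := by
    rw [intervalIntegral.integral_const_mul, integral_sub (hw.intervalIntegrable _ _)
      (Continuous.intervalIntegrable (by fun_prop) _ _), intervalIntegral.integral_const_mul,
      mom_zero hy, mom_one hy]
  rw [h1]
  refine lt_of_lt_of_le (mul_pos (exp_pos (z.re / 2)) (show 0 < 1 - 2 * y by linarith)) ?_
  rw [← h2]
  refine integral_mono_on pi_pos.le (Continuous.intervalIntegrable (by fun_prop) _ _)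
    (Continuous.intervalIntegrable (by fun_prop) _ _) fun θ _ => ?_
  have ht := xx_pos hy θ
  generalize xx y θ = t at ht
  have h3 : 1 - 2 * t ≤ cos (z.im * t) := by
    have h4 := abs_cos_sub_cos_le (z.im * t) 0
    rw [cos_zero, sub_zero, abs_mul, abs_of_pos ht] at h4
    have h5 := (abs_le.1 h4).1
    nlinarith
  have h4 : exp (z.re / 2) * (1 - 2 * t) ≤ exp (z.re * t) * (1 - 2 * t) := by
    rcases le_total t (1 / 2) with h | h
    · exact mul_le_mul_of_nonneg_right (exp_le_exp.2 (by nlinarith)) (by linarith)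
    · exact mul_le_mul_of_nonpos_right (exp_le_exp.2 (by nlinarith)) (by linarith)
  have h5 := mul_le_mul_of_nonneg_left h3 (exp_pos (z.re * t)).le
  have h6 := mul_le_mul_of_nonneg_left (h4.trans h5) (wt_nonneg hy θ)
  linarith

end Pool.Agent.MP_dbd6a6_co.H29
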